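import Pool.Agent.Helper28.SphereCalc

/-!
# Elastic balls that one boundary measurement cannot see (MP_0643f8_an, Q1)

When the shear moduli agree, `μ̃ = μ`, and `λ̃ ≠ λ`, all conditions on the Lamé constants in the
problem hold, `(λ - λ̃)(μ - μ̃) = 0 ≥ 0`.  The displacement `u₀(x) = (x₁, -x₂, 0, …)` is divergence
free and harmonic, hence it solves the transmission problem for every inclusion.
-/

open Set Metric Filter Topology MeasureTheory
open scoped Laplacian ContDiff

namespace Pool.Agent.Results.MP_0643f8_an.InvisibleBalls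

noncomputable section

/-- Euclidean space `ℝᵈ`. -/
abbrev E (d : ℕ) := EuclideanSpace ℝ (Fin d)

/-- The boundary `∂Ω` of the unit ball `Ω`. -/
abbrev Sph (d : ℕ) := sphere (0 : E d) 1

/-- Surface measure on `∂Ω`. -/
def surf (d : ℕ) : Measure (Sph d) := (volume : Measure (E d)).toSphere

variable {d : ℕ}

/-- The partial derivative `∂ⱼ uᵢ (x)`. -/
def partialD (u : E d → E d) (x : E d) (j i : Fin d) : ℝ :=
  (fderiv ℝ u x (EuclideanSpace.single j 1)) i

/-- The divergence of a vector field. -/
def divg (u : E d → E d) (x : E d) : ℝ := ∑ i, partialD u x i i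

/-- The Lamé operator `μ Δ u + (λ + μ) ∇ (∇ · u)`. -/
def lame (lam mu : ℝ) (u : E d → E d) (x : E d) : E d :=
  mu • Δ u x + (lam + mu) • gradient (divg u) x

/-- The `i`-th component of the conormal derivative `λ (∇ · u) N + μ (∇u + ∇uᵀ) N` at `x`, for the
normal vector `N`. -/
def conormal (lam mu : ℝ) (u : E d → E d) (x N : E d) (i : Fin d) : ℝ :=
  lam * divg u x * N i + mu * ∑ j, (partialD u x j i + partialD u x i j) * N j

/-- The pairing `∫_{∂Ω} g · (A x + b)` of a boundary field with the displacement `x ↦ A x + b`. -/
def pairing (g : Sph d → E d) (A : Matrix (Fin d) (Fin d) ℝ) (b : Fin d → ℝ) : ℝ :=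
  ∫ x : Sph d, ∑ i, g x i * (∑ j, A i j * (x : E d) j + b i) ∂(surf d)

/-- `g ∈ L²_Ψ(∂Ω)` for the unit ball `Ω`: square integrable on the unit sphere (surface measure)
and orthogonal to all rigid displacements `x ↦ A x + b`, `A` antisymmetric. -/
def L2Psi (g : Sph d → E d) : Prop :=
  MemLp g 2 (surf d) ∧
    ∀ (A : Matrix (Fin d) (Fin d) ℝ) (b : Fin d → ℝ), (∀ i j, A j i = -A i j) → pairing g A b = 0

/-- The field equal to `um` on the closed ball `B̄(c, r)` and to `up` on `Ω \ B(c, r)`, `Ω` the unit
ball, is the (classical) solution of the transmission problem with inclusion `D = B(c, r)`,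
background constants `(lam, mu)`, inclusion constants `(lam', mu')` and Neumann datum `g`. -/
structure IsSolution (lam mu lam' mu' : ℝ) (c : E d) (r : ℝ) (g : Sph d → E d)
    (um up : E d → E d) : Prop where
  smooth_in : ContDiff ℝ ∞ um
  smooth_out : ContDiff ℝ ∞ up
  eq_out : ∀ x ∈ ball (0 : E d) 1, x ∉ closedBall c r → lame lam mu up x = 0
  eq_in : ∀ x ∈ ball c r, lame lam' mu' um x = 0
  continuous_across : ∀ x ∈ sphere c r, um x = up x
  conormal_across : ∀ x ∈ sphere c r,
    conormal lam' mu' um x (r⁻¹ • (x - c)) = conormal lam mu up x (r⁻¹ • (x - c))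
  neumann : ∀ x : Sph d, ∀ i, conormal lam mu up x x i = g x i
  trace : L2Psi (fun x : Sph d => up x)

/-- Every ball `D` whose closure lies in the unit ball `Ω` gives the boundary measurement
`(g, h)`. -/
def SameMeasurement (lam mu lam' mu' : ℝ) (g h : Sph d → E d) : Prop :=
  ∀ (c : E d) (r : ℝ), 0 < r → closedBall c r ⊆ ball 0 1 →
    ∃ um up : E d → E d, IsSolution lam mu lam' mu' c r g um up ∧ ∀ x : Sph d, up x = h x

/-- The diagonal entries `(1, -1, 0, …)`. -/
def tt (i : Fin d) : ℝ := if (i : ℕ) = 0 then 1 else if (i : ℕ) = 1 then -1 else 0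

/-- The linear map `T = diag(1, -1, 0, …)`. -/
def T (d : ℕ) : E d →L[ℝ] E d :=
  LinearMap.toContinuousLinearMap
    { toFun := fun x => WithLp.toLp 2 (fun i => tt i * x i)
      map_add' := fun x y => by
        ext i; simp [mul_add]
      map_smul' := fun a x => by
        ext i; simp; ring }

lemma T_apply (x : E d) (i : Fin d) : T d x i = tt i * x i := rfl

lemma sum_tt (hd : 2 ≤ d) : ∑ i : Fin d, tt i = 0 := by
  obtain ⟨n, rfl⟩ := Nat.exists_eq_add_of_le hd
  rw [show 2 + n = n + 1 + 1 by ring] at *
  rw [Fin.sum_univ_succ, Fin.sum_univ_succ]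
  have : ∀ i : Fin n, tt (d := n + 1 + 1) i.succ.succ = 0 := by
    intro i
    simp [tt]
  simp only [this]
  simp [tt]

lemma fderiv_T (x : E d) : fderiv ℝ (fun x => T d x) x = T d := (T d).fderiv

lemma partialD_T (x : E d) (j i : Fin d) :
    partialD (fun x => T d x) x j i = if i = j then tt i else 0 := by
  unfold partialD
  rw [fderiv_T, T_apply]
  by_cases h : i = j
  · subst h; simp
  · simp [h]

lemma divg_T (hd : 2 ≤ d) : divg (fun x => T d x) = fun _ : E d => (0 : ℝ) := by
  funext x
  unfold divg
  rw [← sum_tt hd]
  apply Finset.sum_congr rfl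
  intro i _
  rw [partialD_T, if_pos rfl]

lemma laplacian_T : Δ (fun x => T d x) = fun _ : E d => (0 : E d) := by
  funext x
  rw [InnerProductSpace.laplacian_eq_iteratedFDeriv_stdOrthonormalBasis]
  simp only [iteratedFDeriv_two_apply]
  have : fderiv ℝ (fun x => T d x) = fun _ => T d := by funext x; exact fderiv_T x
  rw [this]
  simp

lemma lame_T (hd : 2 ≤ d) (lam mu : ℝ) (x : E d) : lame lam mu (fun x => T d x) x = 0 := by
  unfold lame
  rw [divg_T hd, laplacian_T]
  simp [gradient]

lemma conormal_T (hd : 2 ≤ d) (lam mu : ℝ) (x N : E d) (i : Fin d) :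
    conormal lam mu (fun x => T d x) x N i = ((2 * mu) • T d N) i := by
  unfold conormal
  rw [divg_T hd, mul_zero, zero_mul, zero_add, PiLp.smul_apply, T_apply]
  simp only [partialD_T, smul_eq_mul]
  rw [Finset.sum_eq_single i]
  · simp; ring
  · intro j _ hj
    rw [if_neg hj.symm, if_neg hj]; simp
  · simp

/-- Reflection in the `i`-th coordinate. -/
def refl (i : Fin d) : E d ≃ₗᵢ[ℝ] E d :=
  LinearIsometryEquiv.piLpCongrRight 2
    (fun j => if j = i then LinearIsometryEquiv.neg ℝ else LinearIsometryEquiv.refl ℝ ℝ)

lemma refl_apply (i j : Fin d) (x : E d) : refl i x j = if j = i then - x j else x j := by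
  unfold refl
  rw [LinearIsometryEquiv.piLpCongrRight_apply]
  by_cases h : j = i <;> simp [h]

lemma integral_mul_eq_zero {i j : Fin d} (hij : i ≠ j) :
    ∫ x : Sph d, (x : E d) i * (x : E d) j ∂(surf d) = 0 := by
  have h := Pool.Agent.Helper28.integral_sphMap (refl i) (fun x : E d => x i * x j)
  simp only [refl_apply, if_neg hij.symm, if_true, neg_mul] at h
  rw [integral_neg] at h
  unfold surf
  linarith

lemma integral_coord_eq_zero (i : Fin d) : ∫ x : Sph d, (x : E d) i ∂(surf d) = 0 := by
  have h := Pool.Agent.Helper28.integral_sphMap (refl i) (fun x : E d => x i)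
  simp only [refl_apply, if_true] at h
  rw [integral_neg] at h
  unfold surf
  linarith

instance : IsFiniteMeasure (surf d) := by unfold surf; infer_instance

instance : (surf d).IsOpenPosMeasure := by unfold surf; infer_instance

lemma integrable_cont (h : Sph d → ℝ) (hc : Continuous h) : Integrable h (surf d) :=
  hc.integrable_of_hasCompactSupport (HasCompactSupport.of_compactSpace _)

lemma L2Psi_T (a : ℝ) : L2Psi (fun x : Sph d => a • T d x) := by
  refine ⟨?_, ?_⟩
  · apply Continuous.memLp_of_hasCompactSupport
    · have h1 : Continuous fun x : Sph d => T d x :=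
        (T d).continuous.comp continuous_subtype_val
      exact h1.const_smul a
    · exact HasCompactSupport.of_compactSpace _
  · intro A b hA
    have hAii : ∀ i : Fin d, A i i = 0 := by
      intro i
      have := hA i i
      linarith
    have hexp : ∀ x : Sph d, ∑ i, (a • T d x) i * (∑ j, A i j * (x : E d) j + b i)
        = ∑ i, (a * tt i * b i) * (x : E d) i
          + ∑ i, ∑ j, (a * tt i * A i j) * ((x : E d) i * (x : E d) j) := by
      intro x
      rw [← Finset.sum_add_distrib]
      apply Finset.sum_congr rfl
      intro i _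
      rw [PiLp.smul_apply, T_apply, smul_eq_mul, mul_add, Finset.mul_sum, add_comm]
      congr 1
      · ring
      · apply Finset.sum_congr rfl
        intro j _
        ring
    have hc : ∀ i : Fin d, Continuous fun x : Sph d => (x : E d) i := fun i =>
      (EuclideanSpace.proj (𝕜 := ℝ) i).continuous.comp continuous_subtype_val
    unfold pairing
    simp only [hexp]
    rw [integral_add, integral_finsetSum, integral_finsetSum]
    · have e1 : ∀ i : Fin d, ∫ x : Sph d, (a * tt i * b i) * (x : E d) i ∂(surf d) = 0 := by
        intro i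
        rw [integral_const_mul, integral_coord_eq_zero, mul_zero]
      have e2 : ∀ i : Fin d, ∫ x : Sph d,
          ∑ j, (a * tt i * A i j) * ((x : E d) i * (x : E d) j) ∂(surf d) = 0 := by
        intro i
        rw [integral_finsetSum]
        · apply Finset.sum_eq_zero
          intro j _
          rw [integral_const_mul]
          by_cases hij : i = j
          · subst hij
            rw [hAii i]; simp
          · rw [integral_mul_eq_zero hij, mul_zero]
        · intro j _
          exact integrable_cont _ (continuous_const.mul ((hc i).mul (hc j)))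
      simp [e1, e2]
    · intro i _
      exact integrable_cont _ (continuous_finsetSum _ fun j _ =>
        continuous_const.mul ((hc i).mul (hc j)))
    · intro i _
      exact integrable_cont _ (continuous_const.mul (hc i))
    · exact integrable_cont _ (continuous_finsetSum _ fun i _ => continuous_const.mul (hc i))
    · exact integrable_cont _ (continuous_finsetSum _ fun i _ => continuous_finsetSum _ fun j _ =>
        continuous_const.mul ((hc i).mul (hc j)))

/-- For every `d ≥ 2` and all admissible Lamé constants with equal shear moduli there is one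
nonzero Neumann datum on the boundary of the unit ball whose boundary measurement is the same
for all balls inside. -/
theorem result (d : ℕ) (hd : 2 ≤ d) (lam mu lam' : ℝ) (_hmu : 0 < mu) (_hlam : 0 < d * lam + 2 * mu)
    (_hlam' : 0 < lam') (_hne : lam' ≠ lam) :
    ∃ g h : Sph d → E d, L2Psi g ∧ ¬ g =ᵐ[surf d] 0 ∧ SameMeasurement lam mu lam' mu g h := by
  refine ⟨fun x => (2 * mu) • T d x, fun x => T d x, L2Psi_T _, ?_, ?_⟩
  · intro hg
    have hcont : Continuous fun x : Sph d => (2 * mu) • T d x := by
      have h1 : Continuous fun x : Sph d => T d x :=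
        (T d).continuous.comp continuous_subtype_val
      exact h1.const_smul (2 * mu)
    have h0 := (hcont.ae_eq_iff_eq (surf d) continuous_zero).mp hg
    have h1 := congrFun h0 ⟨EuclideanSpace.single ⟨0, by omega⟩ 1, by simp⟩
    have h2 := congrArg (fun v : E d => v ⟨0, by omega⟩) h1
    simp only [PiLp.smul_apply, T_apply, Pi.zero_apply, PiLp.zero_apply] at h2
    simp [tt] at h2
    exact _hmu.ne' h2
  · intro c r _ _
    refine ⟨fun x => T d x, fun x => T d x, ⟨(T d).contDiff, (T d).contDiff, ?_, ?_, ?_, ?_, ?_, ?_⟩, ?_⟩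
    · intro x _ _; exact lame_T hd _ _ x
    · intro x _; exact lame_T hd _ _ x
    · intro x _; rfl
    · intro x _; funext i; rw [conormal_T hd, conormal_T hd]
    · intro x i; rw [conormal_T hd]
    · simpa using L2Psi_T (d := d) 1
    · intro x; rfl

end

end Pool.Agent.Results.MP_0643f8_an.InvisibleBalls
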